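import Pool.Agent.N816.LR.Defs

set_option autoImplicit false

/-!
# A virtually free group embeds in a split extension of a free group by a finite group

Let `N` be a free normal subgroup of finite index of `G` and `Q = G ⧸ N`. With a section `s` of
`G → Q` and its cocycle `c`, the finite group `Q` acts on the free group `N * F(y_q : q ≠ 1)` by
`α_q(n) = y_q⁻¹ (s(q) n s(q)⁻¹) y_q` and `α_q(y_p) = y_q⁻¹ c(q,p) y_{qp}`, and
`n s(q) ↦ (n y_q) q` embeds `G` in the semidirect product.
-/

open Pool.Agent.N816.LR

namespace Pool.Agent.N886.LRV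

section Cocycle

variable {B₀ Q : Type} [Group Q]

/-- The new basis. -/
abbrev NB (B₀ Q : Type) [Group Q] : Type := B₀ ⊕ {q : Q // q ≠ 1}

/-- The inclusion of the free group on the old basis. -/
noncomputable def inc (B₀ Q : Type) [Group Q] : FreeGroup B₀ →* FreeGroup (NB B₀ Q) :=
  FreeGroup.map Sum.inl

open Classical in
/-- The element `y_q` (with `y_1 = 1`). -/
noncomputable def yy (B₀ : Type) {Q : Type} [Group Q] (q : Q) : FreeGroup (NB B₀ Q) :=
  if h : q = 1 then 1 else FreeGroup.of (Sum.inr ⟨q, h⟩)

theorem yy_one : yy B₀ (1 : Q) = 1 := by simp [yy]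

theorem yy_of (q : Q) (h : q ≠ 1) : yy B₀ q = FreeGroup.of (Sum.inr ⟨q, h⟩) := by simp [yy, h]

theorem inc_injective : Function.Injective (inc B₀ Q) := by
  have h : ∀ x, (FreeGroup.lift (Sum.elim FreeGroup.of fun _ : {q : Q // q ≠ 1} => 1))
      (inc B₀ Q x) = x := by
    intro x
    have : (FreeGroup.lift (Sum.elim FreeGroup.of fun _ : {q : Q // q ≠ 1} => 1)).comp
      (inc B₀ Q) = MonoidHom.id _ := by
      ext b
      simp [inc]
    exact DFunLike.congr_fun this x
  exact Function.LeftInverse.injective h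

/-- The data of an extension of `Q` by the free group on `B₀`. -/
structure Coc (B₀ Q : Type) [Group Q] where
  conj : Q → (FreeGroup B₀ →* FreeGroup B₀)
  c : Q → Q → FreeGroup B₀
  conj_one : conj 1 = MonoidHom.id _
  c_one_left : ∀ q, c 1 q = 1
  c_one_right : ∀ q, c q 1 = 1
  conj_conj : ∀ q p n, conj q (conj p n) = c q p * conj (q * p) n * (c q p)⁻¹
  coc : ∀ q p r, c q p * c (q * p) r = conj q (c p r) * c q (p * r)

variable (D : Coc B₀ Q)

/-- The endomorphism `α_q`. -/
noncomputable def al (q : Q) : FreeGroup (NB B₀ Q) →* FreeGroup (NB B₀ Q) :=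
  FreeGroup.lift (Sum.elim
    (fun b => (yy B₀ q)⁻¹ * inc B₀ Q (D.conj q (FreeGroup.of b)) * yy B₀ q)
    (fun p => (yy B₀ q)⁻¹ * inc B₀ Q (D.c q p) * yy B₀ (q * p)))

theorem al_inc (q : Q) (n : FreeGroup B₀) :
    al D q (inc B₀ Q n) = (yy B₀ q)⁻¹ * inc B₀ Q (D.conj q n) * yy B₀ q := by
  have : (al D q).comp (inc B₀ Q) =
      ((MulAut.conj (yy B₀ q)⁻¹).toMonoidHom.comp ((inc B₀ Q).comp (D.conj q))) := by
    ext b
    simp [al, inc]
  have h2 := DFunLike.congr_fun this n
  simpa using h2

theorem al_yy (q p : Q) :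
    al D q (yy B₀ p) = (yy B₀ q)⁻¹ * inc B₀ Q (D.c q p) * yy B₀ (q * p) := by
  by_cases h : p = 1
  · subst h
    simp [yy_one, D.c_one_right]
  · rw [yy_of p h, al, FreeGroup.lift_apply_of]
    rfl

theorem hom_ext' {M : Type} [Group M] (f g : FreeGroup (NB B₀ Q) →* M)
    (h1 : ∀ n, f (inc B₀ Q n) = g (inc B₀ Q n)) (h2 : ∀ q, f (yy B₀ q) = g (yy B₀ q)) :
    f = g := by
  ext b
  rcases b with b | ⟨q, hq⟩
  · have := h1 (FreeGroup.of b)
    simpa [inc] using this
  · have := h2 q
    rwa [yy_of q hq] at this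

theorem al_one : al D 1 = MonoidHom.id _ := by
  apply hom_ext'
  · intro n
    rw [al_inc, yy_one, D.conj_one]
    simp
  · intro q
    rw [al_yy, yy_one, D.c_one_left]
    simp

theorem al_mul (q p : Q) : al D (q * p) = (al D q).comp (al D p) := by
  apply hom_ext'
  · intro n
    rw [MonoidHom.comp_apply, al_inc, al_inc, map_mul, map_mul, map_inv, al_yy, al_inc,
      D.conj_conj]
    simp only [map_mul, map_inv]
    group
  · intro r
    rw [MonoidHom.comp_apply, al_yy, al_yy, map_mul, map_mul, map_inv, al_yy, al_inc, al_yy]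
    have h := congrArg (inc B₀ Q) (D.coc q p r)
    rw [map_mul, map_mul] at h
    have h2 : inc B₀ Q (D.c (q * p) r) =
        (inc B₀ Q (D.c q p))⁻¹ * (inc B₀ Q (D.conj q (D.c p r)) * inc B₀ Q (D.c q (p * r))) := by
      rw [← h]
      group
    rw [h2, mul_assoc q p r]
    group

/-- The action of `Q`. -/
noncomputable def act : Q →* MulAut (FreeGroup (NB B₀ Q)) where
  toFun q := MonoidHom.toMulEquiv (al D q) (al D q⁻¹)
    (by rw [← al_mul, inv_mul_cancel, al_one]) (by rw [← al_mul, mul_inv_cancel, al_one])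
  map_one' := by
    ext1 x
    change al D 1 x = x
    rw [al_one]
    rfl
  map_mul' q p := by
    ext1 x
    change al D (q * p) x = al D q (al D p x)
    rw [al_mul]
    rfl

theorem act_apply (q : Q) (x : FreeGroup (NB B₀ Q)) : act D q x = al D q x := rfl

end Cocycle

open Classical in
/-- A section with value `1` at `1`. -/
noncomputable def sec {G : Type} [Group G] (N : Subgroup G) [N.Normal] (q : G ⧸ N) : G :=
  if q = 1 then 1 else q.out

theorem sec_one {G : Type} [Group G] (N : Subgroup G) [N.Normal] : sec N 1 = 1 := by simp [sec]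

theorem mk_sec {G : Type} [Group G] (N : Subgroup G) [N.Normal] (q : G ⧸ N) :
    (QuotientGroup.mk (sec N q) : G ⧸ N) = q := by
  by_cases h : q = 1
  · subst h
    rw [sec_one]
    rfl
  · simp only [sec, h, if_false]
    exact QuotientGroup.out_eq' q

theorem mem_of_mk {G : Type} [Group G] (N : Subgroup G) [N.Normal] (g h : G)
    (e : (QuotientGroup.mk g : G ⧸ N) = QuotientGroup.mk h) : g * h⁻¹ ∈ N := by
  rw [← QuotientGroup.eq_one_iff, QuotientGroup.mk_mul, QuotientGroup.mk_inv, e]
  simp

theorem split_normal (G : Type) [Group G] (N : Subgroup G) [N.Normal] [N.FiniteIndex]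
    (B₀ : Type) (E : N ≃* FreeGroup B₀) :
    ∃ (B Q : Type) (_ : Group Q) (_ : Finite Q) (φ : Q →* MulAut (FreeGroup B))
      (e : G →* FreeGroup B ⋊[φ] Q), Function.Injective e := by
  classical
  set s := sec N with hs
  have hc : ∀ q p : G ⧸ N, s q * s p * (s (q * p))⁻¹ ∈ N := by
    intro q p
    apply mem_of_mk
    rw [QuotientGroup.mk_mul, mk_sec, mk_sec, mk_sec]
  let cN : G → (N →* N) := fun g => (MulAut.conjNormal g : MulAut N).toMonoidHom
  have hcN : ∀ g (n : N), ((cN g n : N) : G) = g * n * g⁻¹ := by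
    intro g n
    simp [cN]
  let c' : G ⧸ N → G ⧸ N → N := fun q p => ⟨s q * s p * (s (q * p))⁻¹, hc q p⟩
  let D : Coc B₀ (G ⧸ N) :=
    { conj := fun q => E.toMonoidHom.comp ((cN (s q)).comp E.symm.toMonoidHom)
      c := fun q p => E (c' q p)
      conj_one := by
        apply MonoidHom.ext
        intro x
        have : cN (s 1) (E.symm x) = E.symm x := by
          apply Subtype.ext
          rw [hcN, hs, sec_one]
          simp
        simp [this]
      c_one_left := by
        intro q
        have : c' 1 q = 1 := by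
          apply Subtype.ext
          change s 1 * s q * (s (1 * q))⁻¹ = 1
          rw [one_mul, hs, sec_one]
          simp
        rw [this, map_one]
      c_one_right := by
        intro q
        have : c' q 1 = 1 := by
          apply Subtype.ext
          change s q * s 1 * (s (q * 1))⁻¹ = 1
          rw [mul_one q, hs, sec_one]
          simp
        rw [this, map_one]
      conj_conj := by
        intro q p x
        have : cN (s q) (cN (s p) (E.symm x)) =
            c' q p * cN (s (q * p)) (E.symm x) * (c' q p)⁻¹ := by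
          apply Subtype.ext
          rw [hcN, hcN, Subgroup.coe_mul, Subgroup.coe_mul, Subgroup.coe_inv, hcN]
          change _ = s q * s p * (s (q * p))⁻¹ * _ * (s q * s p * (s (q * p))⁻¹)⁻¹
          group
        simp only [MonoidHom.comp_apply, MulEquiv.toMonoidHom_eq_coe, MonoidHom.coe_coe,
          MulEquiv.symm_apply_apply]
        rw [this, map_mul, map_mul, map_inv]
      coc := by
        intro q p r
        have : c' q p * c' (q * p) r = cN (s q) (c' p r) * c' q (p * r) := by
          apply Subtype.ext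
          rw [Subgroup.coe_mul, Subgroup.coe_mul, hcN]
          change s q * s p * (s (q * p))⁻¹ * (s (q * p) * s r * (s (q * p * r))⁻¹) =
            s q * (s p * s r * (s (p * r))⁻¹) * (s q)⁻¹ * (s q * s (p * r) * (s (q * (p * r)))⁻¹)
          rw [mul_assoc q p r]
          group
        simp only [MonoidHom.comp_apply, MulEquiv.toMonoidHom_eq_coe, MonoidHom.coe_coe,
          MulEquiv.symm_apply_apply]
        rw [← map_mul, this, map_mul] }
  have hg : ∀ g : G, g * (s (QuotientGroup.mk g))⁻¹ ∈ N := by
    intro g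
    apply mem_of_mk
    rw [mk_sec]
  let nn : G → N := fun g => ⟨g * (s (QuotientGroup.mk g))⁻¹, hg g⟩
  let e : G →* FreeGroup (NB B₀ (G ⧸ N)) ⋊[act D] (G ⧸ N) :=
    { toFun := fun g => ⟨inc B₀ (G ⧸ N) (E (nn g)) * yy B₀ (QuotientGroup.mk g : G ⧸ N),
        QuotientGroup.mk g⟩
      map_one' := by
        have h1 : nn 1 = 1 := by
          apply Subtype.ext
          change 1 * (s (QuotientGroup.mk 1))⁻¹ = 1
          rw [QuotientGroup.mk_one, hs, sec_one]
          simp
        rw [h1]
        ext
        · simp [yy_one]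
        · simp
      map_mul' := by
        intro g h
        have h1 : nn (g * h) = nn g * cN (s (QuotientGroup.mk g)) (nn h) *
            c' (QuotientGroup.mk g) (QuotientGroup.mk h) := by
          apply Subtype.ext
          rw [Subgroup.coe_mul, Subgroup.coe_mul, hcN]
          change g * h * (s (QuotientGroup.mk (g * h)))⁻¹ =
            g * (s (QuotientGroup.mk g))⁻¹ * (s (QuotientGroup.mk g) *
              (h * (s (QuotientGroup.mk h))⁻¹) * (s (QuotientGroup.mk g))⁻¹) *
              (s (QuotientGroup.mk g) * s (QuotientGroup.mk h) *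
                (s (QuotientGroup.mk g * QuotientGroup.mk h))⁻¹)
          rw [QuotientGroup.mk_mul]
          group
        have h2 : D.conj (QuotientGroup.mk g) (E (nn h)) =
            E (cN (s (QuotientGroup.mk g)) (nn h)) := by
          change E (cN (s (QuotientGroup.mk g)) (E.symm (E (nn h)))) = _
          rw [MulEquiv.symm_apply_apply]
        apply SemidirectProduct.ext
        · rw [SemidirectProduct.mul_left]
          change inc B₀ (G ⧸ N) (E (nn (g * h))) * yy B₀ (QuotientGroup.mk (g * h) : G ⧸ N) =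
            inc B₀ (G ⧸ N) (E (nn g)) * yy B₀ (QuotientGroup.mk g : G ⧸ N) *
              al D (QuotientGroup.mk g)
                (inc B₀ (G ⧸ N) (E (nn h)) * yy B₀ (QuotientGroup.mk h : G ⧸ N))
          rw [map_mul, al_inc, al_yy, h1, h2]
          change _ = _ * ((yy B₀ (QuotientGroup.mk g : G ⧸ N))⁻¹ * _ *
              yy B₀ (QuotientGroup.mk g : G ⧸ N) * ((yy B₀ (QuotientGroup.mk g : G ⧸ N))⁻¹ *
              inc B₀ (G ⧸ N) (E (c' (QuotientGroup.mk g) (QuotientGroup.mk h))) * _))
          rw [map_mul, map_mul, map_mul, map_mul, QuotientGroup.mk_mul]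
          group
        · rw [SemidirectProduct.mul_right]
          rfl }
  refine ⟨NB B₀ (G ⧸ N), G ⧸ N, inferInstance, inferInstance, act D, e, ?_⟩
  rw [injective_iff_map_eq_one]
  intro g hg1
  have hr : (QuotientGroup.mk g : G ⧸ N) = 1 := congrArg SemidirectProduct.right hg1
  have hl : inc B₀ (G ⧸ N) (E (nn g)) * yy B₀ (QuotientGroup.mk g : G ⧸ N) = 1 :=
    congrArg SemidirectProduct.left hg1
  rw [hr, yy_one, mul_one] at hl
  have h3 : E (nn g) = 1 := inc_injective (by rw [hl, map_one])
  have h4 : nn g = 1 := by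
    apply E.injective
    rw [h3, map_one]
  have h5 : g * (s (QuotientGroup.mk g))⁻¹ = 1 := congrArg Subtype.val h4
  rw [hr, hs, sec_one] at h5
  simpa using h5

theorem split_embed (G : Type) [Group G]
    (h : ∃ F : Subgroup G, F.FiniteIndex ∧ IsFreeGroup F) :
    ∃ (B Q : Type) (_ : Group Q) (_ : Finite Q) (φ : Q →* MulAut (FreeGroup B))
      (e : G →* FreeGroup B ⋊[φ] Q), Function.Injective e := by
  obtain ⟨F, hF, hfree⟩ := h
  have hle : F.normalCore ≤ F := F.normalCore_le
  have h1 : IsFreeGroup (F.normalCore.subgroupOf F) := inferInstance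
  have h2 : IsFreeGroup F.normalCore :=
    IsFreeGroup.ofMulEquiv (Subgroup.subgroupOfEquivOfLe hle)
  exact split_normal G F.normalCore _ (IsFreeGroup.toFreeGroup F.normalCore)

end Pool.Agent.N886.LRV
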